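import Pool.Agent.Lib.MP_479d4c_gt.S.Iface

/-! # Row BCV: the boundary curve is `C²`-near the ellipse -/

set_option autoImplicit false

open ComplexConjugate Topology Metric

noncomputable section

namespace CMC82.H17.Bcv

open CMC46

/-- the unit circle -/
def un (t : ℝ) : ℂ := Complex.exp (t * Complex.I)

lemma un_norm (t : ℝ) : ‖un t‖ = 1 := Complex.norm_exp_ofReal_mul_I t

lemma un_deriv (t : ℝ) : HasDerivAt un (un t * Complex.I) t := by
  have h1 : HasDerivAt (fun x : ℝ => (x : ℂ) * Complex.I) Complex.I t := by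
    simpa using (Complex.ofRealCLM.hasDerivAt (x := t)).mul_const Complex.I
  exact h1.cexp

/-- characters -/
def ch (n : ℝ) (t : ℝ) : ℂ := Complex.exp ((n * t : ℝ) * Complex.I)

lemma ch_norm (n t : ℝ) : ‖ch n t‖ = 1 := Complex.norm_exp_ofReal_mul_I _

lemma ch_deriv (n t : ℝ) : HasDerivAt (ch n) (n * Complex.I * ch n t) t := by
  have h0 : HasDerivAt (fun x : ℝ => ((n * x : ℝ) : ℂ)) (n : ℂ) t := by
    have := ((hasDerivAt_id t).const_mul n).ofReal_comp
    simpa using this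
  have h1 : HasDerivAt (fun x : ℝ => ((n * x : ℝ) : ℂ) * Complex.I) (n * Complex.I) t :=
    h0.mul_const Complex.I
  have h2 := h1.cexp
  have e : Complex.exp (((n * t : ℝ) : ℂ) * Complex.I) * (n * Complex.I) =
      n * Complex.I * ch n t := by
    rw [ch]; ring
  rw [e] at h2
  exact h2

lemma un_conj (t : ℝ) : conj (un t) = Complex.exp (-(t * Complex.I)) := by
  rw [un, ← Complex.exp_conj, map_mul, Complex.conj_ofReal, Complex.conj_I, mul_neg]

/-- the frequency of a monomial -/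
def fr (i : ℕ × ℕ) : ℝ := (i.1 : ℝ) - i.2

lemma mono_ch (i : ℕ × ℕ) (t : ℝ) : un t ^ i.1 * conj (un t) ^ i.2 = ch (fr i) t := by
  rw [un_conj, un, ← Complex.exp_nat_mul, ← Complex.exp_nat_mul, ← Complex.exp_add, ch, fr]
  congr 1
  push_cast
  ring

lemma fr_abs (i : ℕ × ℕ) : |fr i| ≤ (i.1 : ℝ) + i.2 := by
  rw [fr, abs_le]
  have h1 : (0 : ℝ) ≤ i.1 := by positivity
  have h2 : (0 : ℝ) ≤ i.2 := by positivity
  constructor <;> linarith

lemma pow_ge (n : ℕ) : (n : ℝ) ≤ 5 * (6 / 5 : ℝ) ^ n := by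
  have := one_add_mul_le_pow (a := (1 / 5 : ℝ)) (by norm_num) n
  have e : (1 + 1 / 5 : ℝ) = 6 / 5 := by norm_num
  rw [e] at this
  linarith

lemma wt_nn (i : ℕ × ℕ) : 0 ≤ wt i := by unfold wt; positivity

lemma one_le_wt (i : ℕ × ℕ) : 1 ≤ wt i := by
  unfold wt
  have h1 : (1 : ℝ) ≤ 1 + i.1 + i.2 := by
    have h1 : (0 : ℝ) ≤ i.1 := by positivity
    have h2 : (0 : ℝ) ≤ i.2 := by positivity
    linarith
  have h2 : (1 : ℝ) ≤ (6 / 5 : ℝ) ^ (i.1 + i.2) := one_le_pow₀ (by norm_num)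
  nlinarith

lemma fr_le_wt (i : ℕ × ℕ) : |fr i| ≤ wt i := by
  refine (fr_abs i).trans ?_
  unfold wt
  have h1 : (0 : ℝ) ≤ i.1 := by positivity
  have h2 : (0 : ℝ) ≤ i.2 := by positivity
  have h3 : (1 : ℝ) ≤ (6 / 5 : ℝ) ^ (i.1 + i.2) := one_le_pow₀ (by norm_num)
  nlinarith

lemma fr_sq_le_wt (i : ℕ × ℕ) : |fr i| ^ 2 ≤ 5 * wt i := by
  have h0 := fr_abs i
  have h := pow_ge (i.1 + i.2)
  push_cast at h
  have h1 : (0 : ℝ) ≤ i.1 := by positivity
  have h2 : (0 : ℝ) ≤ i.2 := by positivity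
  have h3 : |fr i| ^ 2 ≤ ((i.1 : ℝ) + i.2) ^ 2 := pow_le_pow_left₀ (abs_nonneg _) h0 2
  have h4 : 0 < (6 / 5 : ℝ) ^ (i.1 + i.2) := by positivity
  unfold wt
  nlinarith

/-- termwise derivatives -/
theorem tsum_deriv (c : ℕ × ℕ → ℂ) (u : ℕ × ℕ → ℝ) (hu : Summable u)
    (h0 : ∀ i, ‖c i‖ ≤ u i) (h1 : ∀ i, ‖c i‖ * |fr i| ≤ u i) (t : ℝ) :
    HasDerivAt (fun t => ∑' i, c i * ch (fr i) t) (∑' i, c i * (fr i * Complex.I) * ch (fr i) t)
      t := by
  refine hasDerivAt_tsum (g := fun i t => c i * ch (fr i) t)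
    (g' := fun i t => c i * (fr i * Complex.I) * ch (fr i) t) (y₀ := 0) hu ?_ ?_ ?_ t
  · intro i y
    have := (ch_deriv (fr i) y).const_mul (c i)
    have e : c i * (fr i * Complex.I * ch (fr i) y) = c i * (fr i * Complex.I) * ch (fr i) y := by
      ring
    rw [e] at this
    exact this
  · intro i y
    rw [norm_mul, norm_mul, norm_mul, Complex.norm_I, mul_one, ch_norm, mul_one,
      Complex.norm_real, Real.norm_eq_abs]
    exact h1 i
  · refine Summable.of_norm_bounded hu (fun i => ?_)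
    rw [norm_mul, ch_norm, mul_one]
    exact h0 i

/-- data of a perturbation -/
theorem pert (f f0 : Arr) (η : ℝ) (hN : Near η f f0) (F0 F01 F02 : ℝ → ℂ)
    (h0 : ∀ t, HasSum (fun i => (f0 i : ℂ) * ch (fr i) t) (F0 t))
    (h1 : ∀ t, HasDerivAt F0 (F01 t) t) (h2 : ∀ t, HasDerivAt F01 (F02 t) t) :
    ∃ F1 F2 : ℝ → ℂ, ∀ t,
      HasDerivAt (fun t => ev2 f (un t) (conj (un t))) (F1 t) t ∧ HasDerivAt F1 (F2 t) t ∧
      ‖ev2 f (un t) (conj (un t)) - F0 t‖ ≤ η ∧ ‖F1 t - F01 t‖ ≤ η ∧ ‖F2 t - F02 t‖ ≤ 5 * η := by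
  obtain ⟨hs, hη⟩ := hN
  set c : ℕ × ℕ → ℂ := fun i => ((f i - f0 i : ℝ) : ℂ) with hc
  have cn : ∀ i, ‖c i‖ = |f i - f0 i| := by
    intro i; rw [hc]; exact Complex.norm_real _
  have u0 : ∀ i, ‖c i‖ ≤ wt i * |f i - f0 i| := by
    intro i; rw [cn]
    exact le_mul_of_one_le_left (abs_nonneg _) (one_le_wt i)
  have u1 : ∀ i, ‖c i‖ * |fr i| ≤ wt i * |f i - f0 i| := by
    intro i; rw [cn, mul_comm]
    exact mul_le_mul_of_nonneg_right (fr_le_wt i) (abs_nonneg _)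
  have u2 : ∀ i, ‖c i‖ * |fr i| ^ 2 ≤ 5 * (wt i * |f i - f0 i|) := by
    intro i; rw [cn, mul_comm, ← mul_assoc]
    exact mul_le_mul_of_nonneg_right (fr_sq_le_wt i) (abs_nonneg _)
  set P0 : ℝ → ℂ := fun t => ∑' i, c i * ch (fr i) t with hP0
  set P1 : ℝ → ℂ := fun t => ∑' i, c i * (fr i * Complex.I) * ch (fr i) t with hP1
  set P2 : ℝ → ℂ := fun t => ∑' i, c i * (fr i * Complex.I) * (fr i * Complex.I) * ch (fr i) t
    with hP2
  have d0 : ∀ t, HasDerivAt P0 (P1 t) t := tsum_deriv c _ hs u0 u1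
  have hs5 : Summable fun i : ℕ × ℕ => 5 * (wt i * |f i - f0 i|) := hs.mul_left 5
  have nn : ∀ i, 0 ≤ wt i * |f i - f0 i| := fun i => mul_nonneg (wt_nn i) (abs_nonneg _)
  have nf : ∀ i, ‖((fr i : ℝ) : ℂ)‖ = |fr i| := fun i => Complex.norm_real _
  have nI : ∀ i, ‖c i * (fr i * Complex.I)‖ = ‖c i‖ * |fr i| := by
    intro i
    rw [norm_mul, norm_mul, Complex.norm_I, mul_one, nf]
  have d1 : ∀ t, HasDerivAt P1 (P2 t) t := by
    refine tsum_deriv (fun i => c i * (fr i * Complex.I)) _ hs5 ?_ ?_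
    · intro i
      rw [nI]
      linarith [u1 i, nn i]
    · intro i
      rw [nI, mul_assoc, ← sq]
      exact u2 i
  have b0 : ∀ t, ‖P0 t‖ ≤ η := by
    intro t
    refine le_trans (tsum_of_norm_bounded hs.hasSum ?_) hη
    intro i
    rw [norm_mul, ch_norm, mul_one]
    exact u0 i
  have b1 : ∀ t, ‖P1 t‖ ≤ η := by
    intro t
    refine le_trans (tsum_of_norm_bounded hs.hasSum ?_) hη
    intro i
    rw [norm_mul, ch_norm, mul_one, nI]
    exact u1 i
  have b2 : ∀ t, ‖P2 t‖ ≤ 5 * η := by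
    intro t
    have : ‖P2 t‖ ≤ 5 * ∑' i, wt i * |f i - f0 i| := by
      refine tsum_of_norm_bounded (hs.hasSum.mul_left 5) ?_
      intro i
      rw [norm_mul, ch_norm, mul_one, norm_mul, nI, norm_mul, Complex.norm_I, mul_one,
        nf, mul_assoc, ← sq]
      exact u2 i
    linarith
  have ev : ∀ t, ev2 f (un t) (conj (un t)) = F0 t + P0 t := by
    intro t
    have hsum : Summable fun i => c i * ch (fr i) t := by
      refine Summable.of_norm_bounded hs (fun i => ?_)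
      rw [norm_mul, ch_norm, mul_one]
      exact u0 i
    have h3 := ((h0 t).add hsum.hasSum).tsum_eq
    rw [ev2, ← h3]
    refine tsum_congr (fun i => ?_)
    rw [mul_assoc, mono_ch, hc]
    push_cast
    ring
  have ev' : (fun t => ev2 f (un t) (conj (un t))) = fun t => F0 t + P0 t := funext ev
  refine ⟨fun t => F01 t + P1 t, fun t => F02 t + P2 t, fun t => ⟨?_, ?_, ?_, ?_, ?_⟩⟩
  · rw [ev']
    exact (h1 t).add (d0 t)
  · exact (h2 t).add (d1 t)
  · rw [ev t, add_sub_cancel_left]; exact b0 t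
  · simpa using b1 t
  · simpa using b2 t

lemma sum_sg0 (t : ℝ) : HasSum (fun i => (sg0 i : ℂ) * ch (fr i) t) 1 := by
  have h := hasSum_single (f := fun i : ℕ × ℕ => (sg0 i : ℂ) * ch (fr i) t) (1, 1) (by
    intro i hi
    simp [sg0, hi])
  simpa [sg0, fr, ch] using h

lemma sum_be0 (t : ℝ) : HasSum (fun i => (be0 i : ℂ) * ch (fr i) t)
    (ch (-1) t + ch 1 t / 2) := by
  have h : HasSum (fun i => (be0 i : ℂ) * ch (fr i) t)
      (∑ i ∈ ({(0, 1), (2, 1)} : Finset (ℕ × ℕ)), (be0 i : ℂ) * ch (fr i) t) := by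
    refine hasSum_sum_of_ne_finset_zero ?_
    intro i hi
    simp only [Finset.mem_insert, Finset.mem_singleton, not_or] at hi
    simp [be0, hi.1, hi.2]
  have e : ∑ i ∈ ({(0, 1), (2, 1)} : Finset (ℕ × ℕ)), (be0 i : ℂ) * ch (fr i) t =
      ch (-1) t + ch 1 t / 2 := by
    rw [Finset.sum_pair (by simp)]
    have f1 : fr (0, 1) = -1 := by norm_num [fr]
    have f2 : fr (2, 1) = 1 := by norm_num [fr]
    rw [f1, f2]
    simp [be0]
    ring
  rw [e] at h
  exact h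

lemma ch1 (t : ℝ) : ch 1 t = un t := by simp [ch, un]

lemma chm1 (t : ℝ) : ch (-1) t = conj (un t) := by
  rw [un_conj, ch]
  congr 1
  push_cast
  ring

lemma conj_un_deriv (t : ℝ) : HasDerivAt (fun t => conj (un t)) (-(conj (un t) * Complex.I)) t := by
  have h := (un_deriv t).star
  have e : star (un t * Complex.I) = -(conj (un t) * Complex.I) := by
    rw [star_mul']
    simp
  rw [e] at h
  exact h

/-- quotients -/
theorem quot (S S1 S2 B B1 B2 B0 B01 B02 : ℝ → ℂ) (η : ℝ) (h0 : 0 < η) (h1 : η ≤ 1 / 10)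
    (hS : ∀ t, HasDerivAt S (S1 t) t ∧ HasDerivAt S1 (S2 t) t ∧ ‖S t - 1‖ ≤ η ∧ ‖S1 t‖ ≤ η ∧
      ‖S2 t‖ ≤ 5 * η)
    (hB : ∀ t, HasDerivAt B (B1 t) t ∧ HasDerivAt B1 (B2 t) t ∧ ‖B t - B0 t‖ ≤ η ∧
      ‖B1 t - B01 t‖ ≤ η ∧ ‖B2 t - B02 t‖ ≤ 5 * η)
    (hB0 : ∀ t, ‖B0 t‖ ≤ 3 / 2 ∧ ‖B01 t‖ ≤ 3 / 2 ∧ ‖B02 t‖ ≤ 3 / 2) :
    ∃ G1 G2 : ℝ → ℂ, ∀ t, HasDerivAt (fun t => B t / S t) (G1 t) t ∧ HasDerivAt G1 (G2 t) t ∧
      ‖B t / S t - B0 t‖ ≤ 100 * η ∧ ‖G1 t - B01 t‖ ≤ 100 * η ∧ ‖G2 t - B02 t‖ ≤ 100 * η := by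
  have hSn : ∀ t, 1 / 2 ≤ ‖S t‖ := by
    intro t
    have h := (hS t).2.2.1
    have h2 : ‖(1 : ℂ)‖ ≤ ‖S t‖ + ‖S t - 1‖ := by
      have := norm_sub_le (S t) (S t - 1)
      simpa using this
    rw [norm_one] at h2
    linarith
  have hS0 : ∀ t, S t ≠ 0 := by
    intro t h
    have := hSn t
    rw [h, norm_zero] at this
    linarith
  have hdiv : ∀ (t : ℝ) (x : ℂ) (r : ℝ), ‖x‖ ≤ r → ‖x / S t‖ ≤ 2 * r := by
    intro t x r hx
    rw [norm_div, div_le_iff₀ (by linarith [hSn t])]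
    have h3 : 0 ≤ r := (norm_nonneg x).trans hx
    nlinarith [hSn t]
  set G : ℝ → ℂ := fun t => B t / S t with hG
  set G1 : ℝ → ℂ := fun t => (B1 t - G t * S1 t) / S t with hG1
  set G2 : ℝ → ℂ := fun t => (B2 t - (G1 t * S1 t + G t * S2 t) - G1 t * S1 t) / S t with hG2
  have dG : ∀ t, HasDerivAt G (G1 t) t := by
    intro t
    have h := (hB t).1.div (hS t).1 (hS0 t)
    have e : (B1 t * S t - B t * S1 t) / S t ^ 2 = G1 t := by
      rw [hG1, hG]
      field_simp [hS0 t]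
    rw [e] at h
    exact h
  have dG1 : ∀ t, HasDerivAt G1 (G2 t) t := by
    intro t
    have h := ((hB t).2.1.sub ((dG t).mul (hS t).2.1)).div (hS t).1 (hS0 t)
    have e : ((B2 t - (G1 t * S1 t + G t * S2 t)) * S t - (B1 t - G t * S1 t) * S1 t) / S t ^ 2 =
        G2 t := by
      have e1 : B1 t - G t * S1 t = G1 t * S t := by
        rw [hG1]
        field_simp [hS0 t]
      rw [e1]
      simp only [hG2]
      field_simp [hS0 t]
    simp only [Pi.sub_apply, Pi.mul_apply] at h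
    rw [e] at h
    exact h
  refine ⟨G1, G2, fun t => ?_⟩
  obtain ⟨-, -, s0, s1, s2⟩ := hS t
  obtain ⟨-, -, b0, b1, b2⟩ := hB t
  obtain ⟨c0, c1, c2⟩ := hB0 t
  have mulb : ∀ (x y : ℂ) (r q : ℝ), ‖x‖ ≤ r → ‖y‖ ≤ q → ‖x * y‖ ≤ r * q := by
    intro x y r q hx hy
    rw [norm_mul]
    exact mul_le_mul hx hy (norm_nonneg _) ((norm_nonneg _).trans hx)
  have g0 : ‖G t - B0 t‖ ≤ 5 * η := by
    have e : G t - B0 t = ((B t - B0 t) - B0 t * (S t - 1)) / S t := by
      rw [hG]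
      field_simp [hS0 t]
      ring
    rw [e]
    have := hdiv t ((B t - B0 t) - B0 t * (S t - 1)) (η + 3 / 2 * η)
      ((norm_sub_le _ _).trans (add_le_add b0 (mulb _ _ _ _ c0 s0)))
    linarith
  have gn : ‖G t‖ ≤ 4 := by
    have := norm_add_le (G t - B0 t) (B0 t)
    rw [sub_add_cancel] at this
    linarith
  have g1 : ‖G1 t - B01 t‖ ≤ 13 * η := by
    have e : G1 t - B01 t = ((B1 t - B01 t) - B01 t * (S t - 1) - G t * S1 t) / S t := by
      rw [hG1]
      field_simp [hS0 t]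
      ring
    rw [e]
    have := hdiv t ((B1 t - B01 t) - B01 t * (S t - 1) - G t * S1 t) (η + 3 / 2 * η + 4 * η)
      ((norm_sub_le _ _).trans (add_le_add ((norm_sub_le _ _).trans
        (add_le_add b1 (mulb _ _ _ _ c1 s0))) (mulb _ _ _ _ gn s1)))
    linarith
  have gn1 : ‖G1 t‖ ≤ 3 := by
    have := norm_add_le (G1 t - B01 t) (B01 t)
    rw [sub_add_cancel] at this
    linarith
  have g2 : ‖G2 t - B02 t‖ ≤ 100 * η := by
    have e : G2 t - B02 t = ((B2 t - B02 t) - B02 t * (S t - 1) -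
        (G1 t * S1 t + G t * S2 t) - G1 t * S1 t) / S t := by
      rw [hG2]
      field_simp [hS0 t]
      ring
    rw [e]
    have := hdiv t ((B2 t - B02 t) - B02 t * (S t - 1) -
        (G1 t * S1 t + G t * S2 t) - G1 t * S1 t)
      (5 * η + 3 / 2 * η + (3 * η + 4 * (5 * η)) + 3 * η)
      ((norm_sub_le _ _).trans (add_le_add ((norm_sub_le _ _).trans (add_le_add
        ((norm_sub_le _ _).trans (add_le_add b2 (mulb _ _ _ _ c2 s0)))
        ((norm_add_le _ _).trans (add_le_add (mulb _ _ _ _ gn1 s1) (mulb _ _ _ _ gn s2)))))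
        (mulb _ _ _ _ gn1 s1)))
    linarith
  exact ⟨dG t, dG1 t, by linarith, by linarith, g2⟩

end CMC82.H17.Bcv

namespace CMC82.H17

open CMC46 Bcv

theorem bcv_st : BcvS := by
  intro ε hε
  refine ⟨min (1 / 10) (ε / 100), by positivity, ?_⟩
  intro sg be hsg hbe
  set η : ℝ := min (1 / 10) (ε / 100) with hη
  have h0 : 0 < η := by positivity
  have h1 : η ≤ 1 / 10 := min_le_left _ _
  have h2 : 100 * η ≤ ε := by
    have := min_le_right (1 / 10) (ε / 100)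
    linarith
  obtain ⟨S1, S2, hS⟩ := pert sg sg0 η hsg (fun _ => 1) (fun _ => 0) (fun _ => 0) sum_sg0
    (fun t => hasDerivAt_const t 1) (fun t => hasDerivAt_const t 0)
  obtain ⟨B1, B2, hB⟩ := pert be be0 η hbe (fun t => conj (un t) + un t / 2)
    (fun t => -(conj (un t) * Complex.I) + un t * Complex.I / 2)
    (fun t => -(-(conj (un t) * Complex.I) * Complex.I) + un t * Complex.I * Complex.I / 2)
    (fun t => by
      have := sum_be0 t
      rw [ch1, chm1] at this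
      exact this)
    (fun t => (conj_un_deriv t).add ((un_deriv t).div_const 2))
    (fun t => ((conj_un_deriv t).mul_const Complex.I).neg.add
      (((un_deriv t).mul_const Complex.I).div_const 2))
  have nu : ∀ t, ‖un t‖ = 1 := un_norm
  have nc : ∀ t, ‖conj (un t)‖ = 1 := fun t => by rw [Complex.norm_conj]; exact un_norm t
  have nb : ∀ x y : ℂ, ‖x‖ = 1 → ‖y‖ = 1 → ‖x + y / 2‖ ≤ 3 / 2 := by
    intro x y hx hy
    refine (norm_add_le _ _).trans ?_
    rw [norm_div, hx, hy]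
    norm_num
  obtain ⟨G1, G2, hG⟩ := quot _ S1 S2 _ B1 B2 _ _ _ η h0 h1 (fun t => by
      obtain ⟨a1, a2, a3, a4, a5⟩ := hS t
      exact ⟨a1, a2, a3, by simpa using a4, by simpa using a5⟩) hB
    (fun t => by
      refine ⟨nb _ _ (nc t) (nu t), nb _ _ ?_ ?_, nb _ _ ?_ ?_⟩
      · rw [norm_neg, norm_mul, Complex.norm_I, nc t, one_mul]
      · rw [norm_mul, Complex.norm_I, nu t, one_mul]
      · rw [norm_neg, norm_mul, norm_neg, norm_mul, Complex.norm_I, nc t, one_mul, one_mul]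
      · rw [norm_mul, norm_mul, Complex.norm_I, nu t, one_mul, one_mul])
  refine ⟨fun t => conj (ev2 be (un t) (conj (un t)) / ev2 sg (un t) (conj (un t))),
    fun t => conj (G1 t), fun t => conj (G2 t), fun t => ?_⟩
  obtain ⟨a1, a2, a3, a4, a5⟩ := hG t
  have eu : Complex.exp (-(t * Complex.I)) = conj (un t) := (un_conj t).symm
  have eu2 : Complex.exp (t * Complex.I) = un t := rfl
  refine ⟨rfl, a1.star, a2.star, ?_, ?_, ?_⟩
  · rw [eu, eu2, ← Complex.norm_conj]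
    simp only [map_sub, map_add, map_div₀, Complex.conj_conj, Complex.conj_ofNat]
    exact a3.trans h2
  · rw [eu, eu2, ← Complex.norm_conj]
    have e : conj (conj (G1 t) - Complex.I * (un t - conj (un t) / 2)) =
        G1 t - (-(conj (un t) * Complex.I) + un t * Complex.I / 2) := by
      simp only [map_sub, map_mul, map_div₀, Complex.conj_conj, Complex.conj_ofNat, Complex.conj_I]
      ring
    rw [e]
    exact a4.trans h2
  · rw [eu, eu2, ← Complex.norm_conj]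
    have e : conj (conj (G2 t) + (un t + conj (un t) / 2)) =
        G2 t - (-(-(conj (un t) * Complex.I) * Complex.I) + un t * Complex.I * Complex.I / 2) := by
      simp only [map_add, map_div₀, Complex.conj_conj, Complex.conj_ofNat]
      linear_combination (conj (un t) + un t / 2) * Complex.I_mul_I
    rw [e]
    exact a5.trans h2

end CMC82.H17
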