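import Pool.Agent.Lib.MP_479d4c_gt.S.Iface

/-! # Row PLA: the boundary curve is planar -/

set_option autoImplicit false

open ComplexConjugate Topology Metric

noncomputable section

namespace CMC82.H17

open CMC46

/-- the unit circle -/
def un (t : ℝ) : ℂ := Complex.exp (t * Complex.I)

lemma un_norm (t : ℝ) : ‖un t‖ = 1 := Complex.norm_exp_ofReal_mul_I t

lemma un_zero : un 0 = 1 := by simp [un]

lemma un_arg (w : ℂ) (h : ‖w‖ = 1) : un w.arg = w := by
  have := Complex.norm_mul_exp_arg_mul_I w
  rw [h] at this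
  simpa [un] using this

lemma un_deriv (t : ℝ) : HasDerivAt un (un t * Complex.I) t := by
  have h1 : HasDerivAt (fun x : ℝ => (x : ℂ) * Complex.I) Complex.I t := by
    simpa using (Complex.ofRealCLM.hasDerivAt (x := t)).mul_const Complex.I
  exact h1.cexp

theorem pla_st : ClsS → GeoS → PosS → PlaS := by
  intro _ hG hP d τ k p1 p2 y z sg be ga hS w hw
  have key : ∀ t : ℝ, HasDerivAt (fun t => Hf d sg ga (un t)) 0 t := by
    intro t
    have hn : ‖un t‖ < 6 / 5 := by rw [un_norm]; norm_num
    obtain ⟨s, hs, hsg, -, -⟩ := hP d τ k p1 p2 y z sg be ga hS (un t) hn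
    obtain ⟨-, hH⟩ := hG d τ k p1 p2 y z sg be ga hS (un t) hn
    have h1 := hH.comp_hasDerivAt t (un_deriv t)
    have hpl := hS.pl (un t) (un_norm t)
    set q : ℂ := un t * (un t ^ 2 / 2 - 1) * (ev2 p1 (conj (un t)) (un t) *
      ev2 p2 (conj (un t)) (un t)) with hq
    have hqr : conj q = q := Complex.conj_eq_iff_im.2 hpl
    have hC : un t * gC d p1 p2 sg (un t) = (d / s ^ 2 : ℝ) * q := by
      rw [gC, hsg, hq]
      push_cast
      ring
    have hC2 : conj (un t * gC d p1 p2 sg (un t)) = un t * gC d p1 p2 sg (un t) := by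
      rw [hC, map_mul, hqr, Complex.conj_ofReal]
    have h0 : (un t * Complex.I) • gC d p1 p2 sg (un t) +
        conj (un t * Complex.I) • conj (gC d p1 p2 sg (un t)) = 0 := by
      have e : conj (un t) * conj (gC d p1 p2 sg (un t)) = un t * gC d p1 p2 sg (un t) := by
        rw [← map_mul]; exact hC2
      simp only [smul_eq_mul, map_mul, Complex.conj_I]
      linear_combination (-Complex.I) * e
    rw [h0] at h1
    exact h1
  have hc := is_const_of_deriv_eq_zero (f := fun t => Hf d sg ga (un t))
    (fun t => (key t).differentiableAt) (fun t => (key t).deriv) w.arg 0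
  simp only [un_arg w hw, un_zero] at hc
  rw [hc]

end CMC82.H17
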